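import Pool.Agent.Helper1_XQ.Lin

/-!
Squad XQ, part N: the condition `n8` (transcendental).
-/

set_option autoImplicit false

namespace Pool.Agent.XQ.H1

open MeasureTheory Complex Filter Topology Pool.Agent.H62T Pool.Agent.AEU Pool.Agent.AEU.H29
open Pool.Agent.AEU.H75 (ae_of_line)

variable {n : ℕ}

theorem ip_comm' (a b : ℂ) : ip a b = ip b a := by
  unfold ip
  ring

theorem n8_fix {u : Fin n → ℂ} (hu : GU u) {i j q r : Fin n} (hd : D4 i j q r) (c : ℝ) :
    ∀ᵐ H : Fin n → ℝ, ip (I * u i) (vxi u q r H - vxi u i j H)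
      ≠ c * ‖vxi u q r H - vxi u i j H‖ := by
  obtain ⟨h1, h2, h3, h4, h5, h6⟩ := id hd
  have hv : vxi u q r (Pi.single q 1) - vxi u i j (Pi.single q 1)
      = ((-(dt (u q) (u r))⁻¹ : ℝ) : ℂ) * (I * u r) := by
    rw [vxi_l u h6, vxi_0 u h2.symm h4.symm, sub_zero]
    push_cast
    ring
  have hc : (-(dt (u q) (u r))⁻¹ : ℝ) ≠ 0 := neg_ne_zero.2 (inv_ne_zero (hu.dt0 _ _ h6))
  refine ae_cos_ne (W := fun H => vxi u q r H - vxi u i j H)
    (sub_lin (vxi_lin u q r) (vxi_lin u i j)) q ?_ ?_ c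
  · rw [hv]
    generalize (-(dt (u q) (u r))⁻¹ : ℝ) = d at hc
    have : ip (I * u i) ((d : ℂ) * (I * u r)) = d * ip (u i) (u r) := by
      unfold ip
      simp only [Complex.mul_re, Complex.mul_im, Complex.I_re, Complex.I_im, Complex.ofReal_re,
        Complex.ofReal_im]
      ring
    rw [this]
    exact mul_ne_zero hc (hu.ne0 _ _ h3)
  · rw [hv]
    generalize (-(dt (u q) (u r))⁻¹ : ℝ) = d at hc
    -- the point `i j` does not lie on the line `r`
    have hl : IsLinearMap ℝ fun H : Fin n → ℝ => ip (vxi u q r H - vxi u i j H) (u r) :=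
      ip_lin (sub_lin (vxi_lin u q r) (vxi_lin u i j)) (u r)
    have h7 : ∀ᵐ H : Fin n → ℝ, ip (vxi u q r H - vxi u i j H) (u r) ≠ 0 := by
      refine ae_lin_ne' hl ⟨j, ?_⟩
      rw [vxi_r u h1, vxi_0 u h4 h5, zero_sub]
      have : ip (-(I * u i / (dt (u i) (u j) : ℂ))) (u r)
          = -(ip (I * u i) (u r) / dt (u i) (u j)) := by
        rw [← ip_div]
        unfold ip
        simp only [Complex.neg_re, Complex.neg_im]
        ring
      rw [this]
      have h8 : ip (I * u i) (u r) = dt (u i) (u r) := by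
        unfold ip dt
        simp only [Complex.mul_re, Complex.mul_im, Complex.I_re, Complex.I_im]
        ring
      rw [h8]
      exact neg_ne_zero.2 (div_ne_zero (hu.dt0 _ _ h3) (hu.dt0 _ _ h1))
    filter_upwards [h7] with H h8
    generalize vxi u q r H - vxi u i j H = w at h8
    have : dt w ((d : ℂ) * (I * u r)) = d * ip w (u r) := by
      unfold dt ip
      simp only [Complex.mul_re, Complex.mul_im, Complex.I_re, Complex.I_im, Complex.ofReal_re,
        Complex.ofReal_im]
      ring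
    rw [this]
    exact mul_ne_zero hc h8

/-- the bad angles -/
noncomputable def bad (u : Fin n → ℂ) (i j : Fin n) (m k : ℤ) (s : ℝ) : ℝ :=
  Real.arccos (-ip (u i) (u j)) * (s * Real.arccos (m / 4) + 2 * k * Real.pi) / (2 * Real.pi)

theorem measurable_bad (i j : Fin n) (m k : ℤ) (s : ℝ) :
    Measurable fun p : (Fin n → ℂ) × (Fin n → ℝ) => bad p.1 i j m k s := by
  unfold bad
  exact (((Real.continuous_arccos.measurable.comp (measurable_ip (by fun_prop)
    (by fun_prop)).neg).mul_const _).div_const _)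

theorem n8_ae (hX : ∀ᵐ θ : Fin n → ℝ, GX (un θ)) :
    ∀ᵐ p : (Fin n → ℝ) × (Fin n → ℝ), ∀ i j q r, D4 i j q r → ∀ (m k : ℤ) (s t : ({1, -1} : Set ℝ)),
      ip (I * un p.1 i) (vxi (un p.1) q r p.2 - vxi (un p.1) i j p.2)
        ≠ (t * Real.cos (bad (un p.1) i j m k s)) * ‖vxi (un p.1) q r p.2 - vxi (un p.1) i j p.2‖ := by
  have hcs : Countable ({1, -1} : Set ℝ) := (Set.toFinite _).countable
  simp only [ae_all_iff]
  intro i j q r hd m k s t
  refine prod_ne hX (f := fun u H => ip (I * u i) (vxi u q r H - vxi u i j H))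
    (g := fun u H => (t * Real.cos (bad u i j m k s)) * ‖vxi u q r H - vxi u i j H‖) ?_ ?_ ?_
  · exact measurable_ip (by fun_prop) ((measurable_vxi q r).sub (measurable_vxi i j))
  · exact (measurable_const.mul (Real.measurable_cos.comp (measurable_bad i j m k s))).mul
      ((measurable_vxi q r).sub (measurable_vxi i j)).norm
  · intro u hu
    exact n8_fix hu.toGU hd _

/-- the solutions of `4 cos (2 π θ / α) = m` -/
theorem bad_of {u : Fin n → ℂ} {i j : Fin n} {α θ : ℝ} (h0 : 0 < α) (h1 : α < Real.pi)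
    (h2 : Real.cos α = -ip (u i) (u j)) {m : ℤ}
    (h3 : 4 * Real.cos (2 * Real.pi * θ / α) = m) :
    ∃ (k : ℤ) (s : ({1, -1} : Set ℝ)), Real.cos θ = Real.cos (bad u i j m k s) := by
  have hα : Real.arccos (-ip (u i) (u j)) = α := by
    rw [← h2]
    exact Real.arccos_cos h0.le h1.le
  have hm : Real.cos (2 * Real.pi * θ / α) = m / 4 := by linarith
  have h4 : Real.cos (2 * Real.pi * θ / α) = Real.cos (Real.arccos (m / 4)) := by
    rw [Real.cos_arccos, hm]
    · rw [← hm]
      exact Real.neg_one_le_cos _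
    · rw [← hm]
      exact Real.cos_le_one _
  have hp : (2 : ℝ) * Real.pi ≠ 0 := by positivity
  obtain ⟨k, hk | hk⟩ := Real.cos_eq_cos_iff.1 h4
  · -- `arccos = 2 k π + x`
    refine ⟨-k, ⟨1, by simp⟩, ?_⟩
    congr 1
    unfold bad
    rw [hα, eq_div_iff hp]
    have : 2 * Real.pi * θ / α = Real.arccos (m / 4) - 2 * k * Real.pi := by linarith
    have h5 : 2 * Real.pi * θ = (Real.arccos (m / 4) - 2 * k * Real.pi) * α := by
      rw [← this]
      field_simp
    push_cast
    linear_combination h5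
  · refine ⟨k, ⟨-1, by simp⟩, ?_⟩
    congr 1
    unfold bad
    rw [hα, eq_div_iff hp]
    have : 2 * Real.pi * θ / α = 2 * k * Real.pi - Real.arccos (m / 4) := by linarith
    have h5 : 2 * Real.pi * θ = (2 * k * Real.pi - Real.arccos (m / 4)) * α := by
      rw [← this]
      field_simp
    push_cast
    linear_combination h5

/-- the condition `n8` -/
theorem n8_of {u : Fin n → ℂ} {H : Fin n → ℝ} {i j q r : Fin n}
    (h : ∀ (m k : ℤ) (s t : ({1, -1} : Set ℝ)),
      ip (I * u i) (vxi u q r H - vxi u i j H)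
        ≠ (t * Real.cos (bad u i j m k s)) * ‖vxi u q r H - vxi u i j H‖)
    {α θ : ℝ} (h0 : 0 < α) (h1 : α < Real.pi)
    (h2 : Real.cos α = -ip (u i) (u j))
    (h3 : Real.cos θ * ‖vxi u q r H - vxi u i j H‖ = ip (I * u i) (vxi u q r H - vxi u i j H))
    (m : ℤ) :
    4 * Real.cos (2 * Real.pi * θ / α) ≠ m ∧
      4 * Real.cos (2 * Real.pi * (Real.pi - θ) / α) ≠ m := by
  constructor
  · intro e
    obtain ⟨k, s, e2⟩ := bad_of h0 h1 h2 e
    refine h m k s ⟨1, by simp⟩ ?_
    rw [← h3, e2, one_mul]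
  · intro e
    obtain ⟨k, s, e2⟩ := bad_of h0 h1 h2 e
    refine h m k s ⟨-1, by simp⟩ ?_
    rw [Real.cos_pi_sub] at e2
    rw [← h3, ← e2]
    ring

end Pool.Agent.XQ.H1
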