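import Pool.Agent.Helper1_XQ.Vx

/-!
Squad XQ, part N: the conditions `n2`, `n3`, `n4` (norms of linear maps).
-/

set_option autoImplicit false

namespace Pool.Agent.XQ.H1

open MeasureTheory Complex Filter Topology Pool.Agent.H62T Pool.Agent.AEU Pool.Agent.AEU.H29

variable {n : ℕ}

/-- the diagonal -/
noncomputable def dg (u : Fin n → ℂ) (i j k l : Fin n) (H : Fin n → ℝ) : ℂ :=
  vxi u i j H - vxi u k l H

theorem dg_lin (u : Fin n → ℂ) (i j k l : Fin n) : IsLinearMap ℝ (dg u i j k l) :=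
  sub_lin (vxi_lin u i j) (vxi_lin u k l)

theorem measurable_dg (i j k l : Fin n) :
    Measurable fun p : (Fin n → ℂ) × (Fin n → ℝ) => dg p.1 i j k l p.2 :=
  (measurable_vxi i j).sub (measurable_vxi k l)

/-- one of the indices -/
def M4 (m i j k l : Fin n) : Prop := m = i ∨ m = j ∨ m = k ∨ m = l

theorem dg_0 (u : Fin n → ℂ) {i j k l m : Fin n} (h : ¬ M4 m i j k l) :
    dg u i j k l (Pi.single m 1) = 0 := by
  unfold M4 at h
  push Not at h
  obtain ⟨h1, h2, h3, h4⟩ := h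
  unfold dg
  rw [vxi_0 u h1 h2, vxi_0 u h3 h4, sub_zero]

/-- the partner of `m` in the pairing `ij`, `kl` -/
theorem dg_norm {u : Fin n → ℂ} (hu : GU u) {i j k l : Fin n} (hd : D4 i j k l) {m : Fin n}
    (hm : M4 m i j k l) : ∃ m', m ≠ m' ∧ ((m = i ∧ m' = j) ∨ (m = j ∧ m' = i) ∨ (m = k ∧ m' = l) ∨
      (m = l ∧ m' = k)) ∧ ‖dg u i j k l (Pi.single m 1)‖ = 1 / |dt (u m) (u m')| := by
  obtain ⟨h1, h2, h3, h4, h5, h6⟩ := hd
  unfold dg
  rcases hm with rfl | rfl | rfl | rfl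
  · refine ⟨j, h1, Or.inl ⟨rfl, rfl⟩, ?_⟩
    rw [vxi_0 u h2 h3, sub_zero, norm_vxi_l hu h1]
  · refine ⟨i, h1.symm, Or.inr (Or.inl ⟨rfl, rfl⟩), ?_⟩
    rw [vxi_0 u h4 h5, sub_zero, norm_vxi_r hu h1, dt_comm']
  · refine ⟨l, h6, Or.inr (Or.inr (Or.inl ⟨rfl, rfl⟩)), ?_⟩
    rw [vxi_0 u h2.symm h4.symm, zero_sub, norm_neg, norm_vxi_l hu h6]
  · refine ⟨k, h6.symm, Or.inr (Or.inr (Or.inr ⟨rfl, rfl⟩)), ?_⟩
    rw [vxi_0 u h3.symm h5.symm, zero_sub, norm_neg, norm_vxi_r hu h6, dt_comm']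

theorem dg_pos {u : Fin n → ℂ} (hu : GU u) {i j k l : Fin n} (hd : D4 i j k l) {m : Fin n}
    (hm : M4 m i j k l) : 0 < ‖dg u i j k l (Pi.single m 1)‖ := by
  obtain ⟨m', h1, -, h2⟩ := dg_norm hu hd hm
  rw [h2]
  exact one_div_pos.2 (hu.dtpos h1)

theorem n2_ae (hX : ∀ᵐ θ : Fin n → ℝ, GX (un θ)) :
    ∀ᵐ p : (Fin n → ℝ) × (Fin n → ℝ), ∀ i j q r q' r', D4 i j q r → D4 i j q' r' →
      ¬ ((q = q' ∧ r = r') ∨ (q = r' ∧ r = q')) →
      |dt (un p.1 q) (un p.1 r)| * ‖dg (un p.1) i j q r p.2‖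
        ≠ |dt (un p.1 q') (un p.1 r')| * ‖dg (un p.1) i j q' r' p.2‖ := by
  simp only [ae_all_iff]
  intro i j q r q' r' hd hd' hne
  refine prod_ne hX (f := fun u H => |dt (u q) (u r)| * ‖dg u i j q r H‖)
    (g := fun u H => |dt (u q') (u r')| * ‖dg u i j q' r' H‖) ?_ ?_ ?_
  · exact ((measurable_dt (by fun_prop) (by fun_prop)).abs).mul (measurable_dg i j q r).norm
  · exact ((measurable_dt (by fun_prop) (by fun_prop)).abs).mul (measurable_dg i j q' r').norm
  · intro u hu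
    have key : ∀ᵐ H : Fin n → ℝ, ‖((|dt (u q) (u r)| : ℝ) : ℂ) * dg u i j q r H‖
        ≠ ‖((|dt (u q') (u r')| : ℝ) : ℂ) * dg u i j q' r' H‖ := by
      refine ae_norm_ne (smul_lin (dg_lin u i j q r) _) (smul_lin (dg_lin u i j q' r') _) ?_
      obtain ⟨h1, h2, h3, h4, h5, h6⟩ := id hd
      obtain ⟨k1, k2, k3, k4, k5, k6⟩ := id hd'
      have main : ∀ m, (m = q ∨ m = r) → m ≠ q' → m ≠ r' →
          ‖((|dt (u q) (u r)| : ℝ) : ℂ) * dg u i j q r (Pi.single m 1)‖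
            ≠ ‖((|dt (u q') (u r')| : ℝ) : ℂ) * dg u i j q' r' (Pi.single m 1)‖ := by
        intro m hm hq hr
        have hmi : m ≠ i := by
          rcases hm with rfl | rfl
          · exact h2.symm
          · exact h3.symm
        have hmj : m ≠ j := by
          rcases hm with rfl | rfl
          · exact h4.symm
          · exact h5.symm
        rw [dg_0 u (i := i) (j := j) (k := q') (l := r') (m := m) (by
          unfold M4
          tauto), mul_zero, norm_zero, norm_mul, Complex.norm_real, Real.norm_eq_abs, abs_abs]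
        have h7 : 0 < ‖dg u i j q r (Pi.single m 1)‖ := dg_pos hu.toGU hd (by
          unfold M4
          tauto)
        exact (mul_pos (hu.dtpos h6) h7).ne'
      by_cases c1 : q = q' ∨ q = r'
      · have c2 : r ≠ q' ∧ r ≠ r' := by
          constructor
          · rintro rfl
            rcases c1 with rfl | rfl
            · exact h6 rfl
            · exact hne (Or.inr ⟨rfl, rfl⟩)
          · rintro rfl
            rcases c1 with rfl | rfl
            · exact hne (Or.inl ⟨rfl, rfl⟩)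
            · exact h6 rfl
        exact ⟨r, main r (Or.inr rfl) c2.1 c2.2⟩
      · push Not at c1
        exact ⟨q, main q (Or.inl rfl) c1.1 c1.2⟩
    filter_upwards [key] with H hH
    simpa only [norm_mul, Complex.norm_real, Real.norm_eq_abs, abs_abs] using hH

theorem n3_ae (hX : ∀ᵐ θ : Fin n → ℝ, GX (un θ)) :
    ∀ᵐ p : (Fin n → ℝ) × (Fin n → ℝ), ∀ i j k l i' j' k' l', D4 i j k l → D4 i' j' k' l' →
      (∃ m, M4 m i j k l ∧ ¬ M4 m i' j' k' l') →
      ‖dg (un p.1) i j k l p.2‖ ≠ ‖dg (un p.1) i' j' k' l' p.2‖ := by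
  simp only [ae_all_iff]
  intro i j k l i' j' k' l' hd hd' hm
  obtain ⟨m, hm, hm'⟩ := hm
  refine prod_ne hX (f := fun u H => ‖dg u i j k l H‖)
    (g := fun u H => ‖dg u i' j' k' l' H‖) (measurable_dg i j k l).norm
    (measurable_dg i' j' k' l').norm ?_
  intro u hu
  refine ae_norm_ne (dg_lin u i j k l) (dg_lin u i' j' k' l') ⟨m, ?_⟩
  rw [dg_0 u hm', norm_zero]
  exact (dg_pos hu.toGU hd hm).ne'

theorem n4_ae (hX : ∀ᵐ θ : Fin n → ℝ, GX (un θ)) :
    ∀ᵐ p : (Fin n → ℝ) × (Fin n → ℝ), ∀ a b b' c i j k l, D4 a b b' c → D4 i j k l →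
      ‖vxi (un p.1) a b p.2 - fvx (un p.1) a c b' p.2‖ ≠ ‖dg (un p.1) i j k l p.2‖ := by
  simp only [ae_all_iff]
  intro a b b' c i j k l hd hd'
  refine prod_ne hX (f := fun u H => ‖vxi u a b H - fvx u a c b' H‖)
    (g := fun u H => ‖dg u i j k l H‖) ((measurable_vxi a b).sub (measurable_fvx a c b')).norm
    (measurable_dg i j k l).norm ?_
  intro u hu
  refine ae_norm_ne (sub_lin (vxi_lin u a b) (fvx_lin u a c b')) (dg_lin u i j k l) ?_
  obtain ⟨h1, h2, h3, h4, h5, h6⟩ := id hd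
  by_contra hcon
  push Not at hcon
  have eb : ‖dg u i j k l (Pi.single b 1)‖ = 1 / |dt (u a) (u b)| := by
    rw [← hcon b, fvx_0 u h1.symm h4 h5, sub_zero, norm_vxi_r hu.toGU h1]
  have eb' : ‖dg u i j k l (Pi.single b' 1)‖ = 1 / |dt (u a) (u b')| := by
    rw [← hcon b', vxi_0 u h2.symm h4.symm, zero_sub, norm_neg, fvx_b hu.toGU h2 h6.symm]
  have mb : M4 b i j k l := by
    by_contra hh
    rw [dg_0 u hh, norm_zero] at eb
    exact (one_div_pos.2 (hu.dtpos h1)).ne eb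
  have mb' : M4 b' i j k l := by
    by_contra hh
    rw [dg_0 u hh, norm_zero] at eb'
    exact (one_div_pos.2 (hu.dtpos h2)).ne eb'
  obtain ⟨m, hm, pm, em⟩ := dg_norm hu.toGU hd' mb
  obtain ⟨m', hm', pm', em'⟩ := dg_norm hu.toGU hd' mb'
  have f1 : m = a := by
    rw [em] at eb
    have e := inv_inj.1 (by simpa only [one_div] using eb)
    rcases hu.toGU.dtinj hm h1 e with ⟨w1, w2⟩ | ⟨w1, w2⟩
    · exact absurd w1 h1.symm
    · exact w2
  have f2 : m' = a := by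
    rw [em'] at eb'
    have e := inv_inj.1 (by simpa only [one_div] using eb')
    rcases hu.toGU.dtinj hm' h2 e with ⟨w1, w2⟩ | ⟨w1, w2⟩
    · exact absurd w1 h2.symm
    · exact w2
  subst f1
  subst f2
  obtain ⟨k1, k2, k3, k4, k5, k6⟩ := id hd'
  -- two different indices have the same partner
  rcases pm with ⟨q1, q2⟩ | ⟨q1, q2⟩ | ⟨q1, q2⟩ | ⟨q1, q2⟩ <;>
    rcases pm' with ⟨r1, r2⟩ | ⟨r1, r2⟩ | ⟨r1, r2⟩ | ⟨r1, r2⟩ <;> subst_vars <;>
      first
        | exact h4 rfl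
        | exact absurd rfl h1
        | exact absurd rfl h2
        | exact absurd rfl k1
        | exact absurd rfl k2
        | exact absurd rfl k3
        | exact absurd rfl k4
        | exact absurd rfl k5

end Pool.Agent.XQ.H1
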