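import Pool.Agent.Helper1_XQ.Lin
import Pool.Agent.Helper1_XQ.Sq
import Pool.Agent.Helper1_XQ.N8

/-!
Squad XQ, part N: assembly of the conditions `n1` - `n8`.
-/

set_option autoImplicit false

namespace Pool.Agent.XQ.H1

open MeasureTheory Complex Filter Topology Pool.Agent.H62T Pool.Agent.AEU Pool.Agent.AEU.H29

variable {n : ℕ}

/-- the conditions `n1` - `n8` in terms of the indices -/
structure NI (u : Fin n → ℂ) (H : Fin n → ℝ) : Prop where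
  n1 : ∀ i j q r, D4 i j q r → ip (vxi u i j H - vxi u q r H) (I * u i) ≠ 0
  n2 : ∀ i j q r q' r', D4 i j q r → D4 i j q' r' → ¬ ((q = q' ∧ r = r') ∨ (q = r' ∧ r = q')) →
    |dt (u q) (u r)| * ‖dg u i j q r H‖ ≠ |dt (u q') (u r')| * ‖dg u i j q' r' H‖
  n3 : ∀ i j k l i' j' k' l', D4 i j k l → D4 i' j' k' l' →
    (∃ m, M4 m i j k l ∧ ¬ M4 m i' j' k' l') → ‖dg u i j k l H‖ ≠ ‖dg u i' j' k' l' H‖
  n4 : ∀ a b b' c i j k l, D4 a b b' c → D4 i j k l →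
    ‖vxi u a b H - fvx u a c b' H‖ ≠ ‖dg u i j k l H‖
  n5 : ∀ a b b' c, D4 a b b' c → ip (vxi u a b H - fvx u a c b' H) (I * u b) ≠ 0
  n6 : ∀ i j k s, D4 i j k s → dt (sA u i j k s H) (sB u i j k H) ≠ 0
  n8 : ∀ i j q r, D4 i j q r → ∀ (m k : ℤ) (s t : ({1, -1} : Set ℝ)),
    ip (I * u i) (vxi u q r H - vxi u i j H)
      ≠ (t * Real.cos (bad u i j m k s)) * ‖vxi u q r H - vxi u i j H‖

theorem ni_ae (hX : ∀ᵐ θ : Fin n → ℝ, GX (un θ)) :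
    ∀ᵐ p : (Fin n → ℝ) × (Fin n → ℝ), NI (un p.1) p.2 := by
  filter_upwards [n1_ae hX, n2_ae hX, n3_ae hX, n4_ae hX, n5_ae hX, n6_ae hX, n8_ae hX] with p
    h1 h2 h3 h4 h5 h6 h8
  exact ⟨h1, h2, h3, h4, h5, h6, h8⟩

/-- the conditions `x1`, `x2`, `n1` - `n8` of `GenX` -/
structure GenN (P : Finset HP) : Prop where
  x1 : ∀ a ∈ P, ∀ b ∈ P, ∀ c ∈ P, ∀ d ∈ P, Ne4 a b c d →
    a.1 * c.1 ≠ I * (b.1 * d.1) ∧ a.1 * c.1 ≠ -(I * (b.1 * d.1))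
  x2 : ∀ a b c, Tri P a b c → a.1 * a.1 ≠ I * (b.1 * c.1) ∧ a.1 * a.1 ≠ -(I * (b.1 * c.1))
  n1 : ∀ i ∈ P, ∀ j ∈ P, ∀ q ∈ P, ∀ r ∈ P, Ne4 i j q r → ip (vx i j - vx q r) (I * i.1) ≠ 0
  n2 : ∀ i ∈ P, ∀ j ∈ P, ∀ q ∈ P, ∀ r ∈ P, ∀ q' ∈ P, ∀ r' ∈ P, Ne4 i j q r → Ne4 i j q' r' →
    hE i j q r = hE i j q' r' → (q = q' ∧ r = r') ∨ (q = r' ∧ r = q')
  n3 : ∀ i ∈ P, ∀ j ∈ P, ∀ k ∈ P, ∀ l ∈ P, ∀ i' ∈ P, ∀ j' ∈ P, ∀ k' ∈ P, ∀ l' ∈ P,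
    Ne4 i j k l → Ne4 i' j' k' l' → ‖vx i j - vx k l‖ = ‖vx i' j' - vx k' l'‖ →
    ({i, j, k, l} : Finset HP) = {i', j', k', l'}
  n4 : ∀ a ∈ P, ∀ b ∈ P, ∀ b' ∈ P, ∀ c ∈ P, ∀ i ∈ P, ∀ j ∈ P, ∀ k ∈ P, ∀ l ∈ P,
    Ne4 a b b' c → Ne4 i j k l → ∀ f : Iso2, mv f a = c → mv f c = a →
    ‖vx a b - f (vx a b')‖ ≠ ‖vx i j - vx k l‖
  n5 : ∀ a ∈ P, ∀ b ∈ P, ∀ b' ∈ P, ∀ c ∈ P, Ne4 a b b' c → ∀ f : Iso2, mv f a = c → mv f c = a →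
    ip (vx a b - f (vx a b')) (I * b.1) ≠ 0
  n6 : ∀ i ∈ P, ∀ j ∈ P, ∀ k ∈ P, ∀ s ∈ P, Ne4 i j k s →
    dt (rl s (vx j k) - vx i j) (i.1 * i.1 * (starRingEnd ℂ) (vx j k - vx i j)) ≠ 0
  n8 : ∀ i ∈ P, ∀ j ∈ P, ∀ q ∈ P, ∀ r ∈ P, Ne4 i j q r → ∀ α θ : ℝ, 0 < α → α < Real.pi →
    Real.cos α = -ip i.1 j.1 → 0 < θ → θ < Real.pi →
    Real.cos θ * ‖vx q r - vx i j‖ = ip (I * i.1) (vx q r - vx i j) → ∀ n : ℤ,
    4 * Real.cos (2 * Real.pi * θ / α) ≠ n ∧ 4 * Real.cos (2 * Real.pi * (Real.pi - θ) / α) ≠ n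

theorem idx_ne {u : Fin n → ℂ} {H : Fin n → ℝ} {i j : Fin n}
    (h : ((u i, H i) : HP) ≠ (u j, H j)) : i ≠ j := by
  rintro rfl
  exact h rfl

theorem d4_of {u : Fin n → ℂ} {H : Fin n → ℝ} {i j k l : Fin n}
    (h : Ne4 ((u i, H i) : HP) (u j, H j) (u k, H k) (u l, H l)) : D4 i j k l := by
  obtain ⟨h1, h2, h3, h4, h5, h6⟩ := h
  exact ⟨idx_ne h1, idx_ne h2, idx_ne h3, idx_ne h4, idx_ne h5, idx_ne h6⟩

theorem genn_of {u : Fin n → ℂ} {H : Fin n → ℝ} (hu : GX u) (hi : NI u H) :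
    GenN (sides u H) where
  x1 := by
    intro a ha b hb c hc d hd h
    obtain ⟨i, rfl⟩ := mem_sides.1 ha
    obtain ⟨j, rfl⟩ := mem_sides.1 hb
    obtain ⟨k, rfl⟩ := mem_sides.1 hc
    obtain ⟨l, rfl⟩ := mem_sides.1 hd
    exact hu.x1 i j k l (d4_of h)
  x2 := by
    rintro a b c ⟨ha, hb, hc, h1, h2, h3⟩
    obtain ⟨i, rfl⟩ := mem_sides.1 ha
    obtain ⟨j, rfl⟩ := mem_sides.1 hb
    obtain ⟨k, rfl⟩ := mem_sides.1 hc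
    exact hu.x2 i j k ⟨idx_ne h1, idx_ne h2, idx_ne h3⟩
  n1 := by
    intro a ha b hb c hc d hd h
    obtain ⟨i, rfl⟩ := mem_sides.1 ha
    obtain ⟨j, rfl⟩ := mem_sides.1 hb
    obtain ⟨k, rfl⟩ := mem_sides.1 hc
    obtain ⟨l, rfl⟩ := mem_sides.1 hd
    exact hi.n1 i j k l (d4_of h)
  n2 := by
    intro a ha b hb c hc d hd c' hc' d' hd' h h' e
    obtain ⟨i, rfl⟩ := mem_sides.1 ha
    obtain ⟨j, rfl⟩ := mem_sides.1 hb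
    obtain ⟨q, rfl⟩ := mem_sides.1 hc
    obtain ⟨r, rfl⟩ := mem_sides.1 hd
    obtain ⟨q', rfl⟩ := mem_sides.1 hc'
    obtain ⟨r', rfl⟩ := mem_sides.1 hd'
    by_contra hcon
    refine hi.n2 i j q r q' r' (d4_of h) (d4_of h') ?_ e
    rintro (⟨rfl, rfl⟩ | ⟨rfl, rfl⟩)
    · exact hcon (Or.inl ⟨rfl, rfl⟩)
    · exact hcon (Or.inr ⟨rfl, rfl⟩)
  n3 := by
    classical
    intro a ha b hb c hc d hd a' ha' b' hb' c' hc' d' hd' h h' e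
    obtain ⟨i, rfl⟩ := mem_sides.1 ha
    obtain ⟨j, rfl⟩ := mem_sides.1 hb
    obtain ⟨k, rfl⟩ := mem_sides.1 hc
    obtain ⟨l, rfl⟩ := mem_sides.1 hd
    obtain ⟨i', rfl⟩ := mem_sides.1 ha'
    obtain ⟨j', rfl⟩ := mem_sides.1 hb'
    obtain ⟨k', rfl⟩ := mem_sides.1 hc'
    obtain ⟨l', rfl⟩ := mem_sides.1 hd'
    have hM : ∀ m, M4 m i j k l → M4 m i' j' k' l' := by
      by_contra hcon
      push Not at hcon
      obtain ⟨m, h1, h2⟩ := hcon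
      exact hi.n3 i j k l i' j' k' l' (d4_of h) (d4_of h') ⟨m, h1, h2⟩ e
    apply Finset.eq_of_subset_of_card_le
    · intro s hs
      simp only [Finset.mem_insert, Finset.mem_singleton] at hs ⊢
      rcases hs with rfl | rfl | rfl | rfl
      · rcases hM i (Or.inl rfl) with rfl | rfl | rfl | rfl <;> simp
      · rcases hM j (Or.inr (Or.inl rfl)) with rfl | rfl | rfl | rfl <;> simp
      · rcases hM k (Or.inr (Or.inr (Or.inl rfl))) with rfl | rfl | rfl | rfl <;> simp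
      · rcases hM l (Or.inr (Or.inr (Or.inr rfl))) with rfl | rfl | rfl | rfl <;> simp
    · obtain ⟨g1, g2, g3, g4, g5, g6⟩ := h
      rw [Finset.card_insert_of_notMem (s := {(u j, H j), (u k, H k), (u l, H l)}) (by
          simp only [Finset.mem_insert, Finset.mem_singleton, not_or]
          exact ⟨g1, g2, g3⟩),
        Finset.card_insert_of_notMem (s := {(u k, H k), (u l, H l)}) (by
          simp only [Finset.mem_insert, Finset.mem_singleton, not_or]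
          exact ⟨g4, g5⟩),
        Finset.card_insert_of_notMem (s := {(u l, H l)}) (by
          simp only [Finset.mem_singleton]
          exact g6), Finset.card_singleton]
      exact Finset.card_le_four
  n4 := by
    intro a ha b hb b' hb' c hc i0 hi0 j0 hj0 k0 hk0 l0 hl0 h h' f h1 h2
    obtain ⟨a, rfl⟩ := mem_sides.1 ha
    obtain ⟨b, rfl⟩ := mem_sides.1 hb
    obtain ⟨b', rfl⟩ := mem_sides.1 hb'
    obtain ⟨c, rfl⟩ := mem_sides.1 hc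
    obtain ⟨i, rfl⟩ := mem_sides.1 hi0
    obtain ⟨j, rfl⟩ := mem_sides.1 hj0
    obtain ⟨k, rfl⟩ := mem_sides.1 hk0
    obtain ⟨l, rfl⟩ := mem_sides.1 hl0
    rw [flp_eq hu.toGU H (d4_of h).2.2.1 h1 h2]
    exact hi.n4 a b b' c i j k l (d4_of h) (d4_of h')
  n5 := by
    intro a ha b hb b' hb' c hc h f h1 h2
    obtain ⟨a, rfl⟩ := mem_sides.1 ha
    obtain ⟨b, rfl⟩ := mem_sides.1 hb
    obtain ⟨b', rfl⟩ := mem_sides.1 hb'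
    obtain ⟨c, rfl⟩ := mem_sides.1 hc
    rw [flp_eq hu.toGU H (d4_of h).2.2.1 h1 h2]
    exact hi.n5 a b b' c (d4_of h)
  n6 := by
    intro a ha b hb c hc d hd h
    obtain ⟨i, rfl⟩ := mem_sides.1 ha
    obtain ⟨j, rfl⟩ := mem_sides.1 hb
    obtain ⟨k, rfl⟩ := mem_sides.1 hc
    obtain ⟨l, rfl⟩ := mem_sides.1 hd
    exact hi.n6 i j k l (d4_of h)
  n8 := by
    intro a ha b hb c hc d hd h α θ h0 h1 h2 _ _ h3 m
    obtain ⟨i, rfl⟩ := mem_sides.1 ha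
    obtain ⟨j, rfl⟩ := mem_sides.1 hb
    obtain ⟨q, rfl⟩ := mem_sides.1 hc
    obtain ⟨r, rfl⟩ := mem_sides.1 hd
    exact n8_of (hi.n8 i j q r (d4_of h)) h0 h1 h2 h3 m

end Pool.Agent.XQ.H1
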