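import Pool.Agent.Helper36_XQ.Stmt4

/-!
Squad XQ (MP_5b0138_an), part A4, module EAV: translation to the expected area.
-/

set_option autoImplicit false

namespace Pool.Agent.XQ.K4.H1

open MeasureTheory Complex Filter Topology ProbabilityTheory Pool.Agent.H16Iso Pool.Agent.H62T
  Pool.Agent.H16F Pool.Agent.H38KL Pool.Agent.AEU
open scoped ENNReal NNReal

theorem kME_meas (u : Fin 4 → ℂ) (h : Fin 4 → ℝ) (M E : Finset (Fin 4)) :
    Measurable (fun p : ℝ × ℂ × ℂ => kME u h M E p.1 p.2.1 p.2.2) := by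
  unfold kME pB
  refine Finset.measurable_fun_sum _ fun B _ => ?_
  exact (H8.pD_meas (dm_open u h _)).const_mul _

theorem kME_diag_meas (u : Fin 4 → ℂ) (h : Fin 4 → ℝ) (M E : Finset (Fin 4)) :
    Measurable (fun p : ℝ × ℂ => kME u h M E p.1 p.2 p.2) := by
  have := (kME_meas u h M E).comp (f := fun p : ℝ × ℂ => (p.1, p.2, p.2))
    (measurable_fst.prodMk (measurable_snd.prodMk measurable_snd))
  exact this

theorem Vt_meas (u : Fin 4 → ℂ) (h : Fin 4 → ℝ) (M E : Finset (Fin 4)) :
    Measurable (Vt u h M E) := by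
  unfold Vt
  have h1 : Measurable (fun p : ℝ × ℂ => ENNReal.ofReal (kME u h M E p.1 p.2 p.2)) :=
    (kME_diag_meas u h M E).ennreal_ofReal
  exact h1.lintegral_prod_right'

theorem kME_nonneg (u : Fin 4 → ℂ) (h : Fin 4 → ℝ) (M E : Finset (Fin 4)) {t : ℝ} (ht : 0 < t)
    (x y : ℂ) : 0 ≤ kME u h M E t x y := by
  rw [kME_eq]
  exact Finset.sum_nonneg fun A _ => kA_nonneg u h ht x y A

theorem eav : EavStatement := by
  intro u h Mt Et MM EE hu hM hE hfin κ hκ hfin2
  have hVt := Vt_meas u h Mt Et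
  have hEA : ∀ t : ℝ, EAr MM EE t = ∫ ω, (volume {x : ℂ |
      (∀ s ∈ Mt, h s < ip (u s) x + Real.sqrt t * hs ω (u s)) ∧
      ∀ s ∈ Et, ip (u s) x + Real.sqrt t * hs ω (u s) < h s}).toReal ∂PP := by
    intro t
    unfold EAr Ar
    refine integral_congr_ae (Eventually.of_forall fun ω => ?_)
    simp only
    congr 2
    ext x
    simp only [Set.mem_ofPred_eq]
    refine and_congr ⟨fun H s hs => ?_, fun H s hs => ?_⟩ ⟨fun H s hs => ?_, fun H s hs => ?_⟩
    · exact H (u s, h s) ((hM _).2 ⟨s, hs, rfl⟩)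
    · obtain ⟨s', hs', rfl⟩ := (hM _).1 hs
      exact H s' hs'
    · exact H (u s, h s) ((hE _).2 ⟨s, hs, rfl⟩)
    · obtain ⟨s', hs', rfl⟩ := (hE _).1 hs
      exact H s' hs'
  have hV : ∀ t : ℝ, 0 < t → (Vt u h Mt Et t).toReal = 1 / (4 * Real.pi * t) * EAr MM EE t := by
    intro t ht
    have hmt : Measurable fun x : ℂ => kME u h Mt Et t x x :=
      (kME_diag_meas u h Mt Et).comp (f := fun x : ℂ => (t, x)) (measurable_const.prodMk measurable_id)
    have hnn : 0 ≤ᵐ[volume] fun x : ℂ => kME u h Mt Et t x x :=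
      Eventually.of_forall fun x => kME_nonneg u h Mt Et ht x x
    have hI : Integrable (fun x => kME u h Mt Et t x x) := by
      refine ⟨hmt.aestronglyMeasurable, ?_⟩
      rw [hasFiniteIntegral_iff_ofReal hnn]
      exact lt_top_iff_ne_top.2 (hfin t ht)
    have h1 := vex u h Mt Et t hu ht hI
    have hG : G t 0 = 1 / (4 * Real.pi * t) := by
      unfold G
      simp
    rw [hG, ← hEA t] at h1
    rw [← h1]
    unfold VM Vt
    rw [integral_eq_lintegral_of_nonneg_ae hnn hmt.aestronglyMeasurable]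
  have hmF : Measurable fun t : ℝ =>
      ENNReal.ofReal (Real.exp (-(κ ^ 2 * t)) / t) * Vt u h Mt Et t := by
    refine Measurable.mul ?_ hVt
    refine Measurable.ennreal_ofReal ?_
    fun_prop
  rw [← integral_toReal hmF.aemeasurable]
  · unfold Lap
    refine setIntegral_congr_fun measurableSet_Ioi fun t ht => ?_
    have ht' : 0 < t := ht
    simp only [ENNReal.toReal_mul]
    rw [ENNReal.toReal_ofReal (by positivity), hV t ht']
    have hpi := Real.pi_pos
    field_simp
  · filter_upwards [ae_restrict_mem measurableSet_Ioi] with t ht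
    exact ENNReal.mul_lt_top ENNReal.ofReal_lt_top (lt_top_iff_ne_top.2 (hfin t ht))

end Pool.Agent.XQ.K4.H1
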