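import Pool.Agent.Helper1_XQ.Vx

/-!
Squad XQ, part N: the conditions `n1`, `n5`, `n6` (linear in one support number).
-/

set_option autoImplicit false

namespace Pool.Agent.XQ.H1

open MeasureTheory Complex Filter Topology Pool.Agent.H62T Pool.Agent.AEU Pool.Agent.AEU.H29
open Pool.Agent.AEU.H75 (ae_of_line)

variable {n : ℕ}

theorem ip_I_I (a b : ℂ) : ip (I * a) (I * b) = ip a b := by
  unfold ip
  simp only [Complex.mul_re, Complex.mul_im, Complex.I_re, Complex.I_im]
  ring

theorem ip_self' {u : Fin n → ℂ} (hu : GU u) (i : Fin n) : ip (u i) (u i) = 1 := by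
  rw [← nsq_ip, hu.nr]
  norm_num

theorem ip_div (a b : ℂ) (d : ℝ) : ip (a / (d : ℂ)) b = ip a b / d := by
  unfold ip
  rw [Complex.div_ofReal_re, Complex.div_ofReal_im]
  ring

theorem n1_ae (hX : ∀ᵐ θ : Fin n → ℝ, GX (un θ)) :
    ∀ᵐ p : (Fin n → ℝ) × (Fin n → ℝ), ∀ i j q r, D4 i j q r →
      ip (vxi (un p.1) i j p.2 - vxi (un p.1) q r p.2) (I * un p.1 i) ≠ 0 := by
  simp only [ae_all_iff]
  intro i j q r hd
  obtain ⟨h1, h2, h3, h4, h5, h6⟩ := hd
  refine prod_ne hX (f := fun u H => ip (vxi u i j H - vxi u q r H) (I * u i))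
    (g := fun _ _ => 0) ?_ measurable_const ?_
  · exact measurable_ip ((measurable_vxi i j).sub (measurable_vxi q r)) (by fun_prop)
  · intro u hu
    refine ae_lin_ne' (ip_lin (sub_lin (vxi_lin u i j) (vxi_lin u q r)) _) ⟨j, ?_⟩
    rw [vxi_r u h1, vxi_0 u h4 h5, sub_zero, ip_div, ip_I_I, ip_self' hu.toGU]
    exact div_ne_zero one_ne_zero (hu.dt0 _ _ h1)

theorem n5_ae (hX : ∀ᵐ θ : Fin n → ℝ, GX (un θ)) :
    ∀ᵐ p : (Fin n → ℝ) × (Fin n → ℝ), ∀ a b b' c, D4 a b b' c →
      ip (vxi (un p.1) a b p.2 - fvx (un p.1) a c b' p.2) (I * un p.1 b) ≠ 0 := by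
  simp only [ae_all_iff]
  intro a b b' c hd
  obtain ⟨h1, h2, h3, h4, h5, h6⟩ := hd
  refine prod_ne hX (f := fun u H => ip (vxi u a b H - fvx u a c b' H) (I * u b))
    (g := fun _ _ => 0) ?_ measurable_const ?_
  · exact measurable_ip ((measurable_vxi a b).sub (measurable_fvx a c b')) (by fun_prop)
  · intro u hu
    refine ae_lin_ne' (ip_lin (sub_lin (vxi_lin u a b) (fvx_lin u a c b')) _) ⟨b, ?_⟩
    rw [vxi_r u h1, fvx_0 u h1.symm h4 h5, sub_zero, ip_div, ip_I_I]
    exact div_ne_zero (hu.ne0 _ _ h1) (hu.dt0 _ _ h1)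

/-- a segment of the line `j` -/
theorem seg_eq {u : Fin n → ℂ} (hu : GU u) (H : Fin n → ℝ) {i j k : Fin n} (hd : Di i j k) :
    vxi u i j H - vxi u j k H = ((-(Dl u i j k H / pA u i j k) : ℝ) : ℂ) * (I * u j) := by
  obtain ⟨h1, h2, h3⟩ := hd
  have a : (dt (u i) (u j) : ℂ) ≠ 0 := by exact_mod_cast hu.dt0 _ _ h1
  have b : (dt (u j) (u k) : ℂ) ≠ 0 := by exact_mod_cast hu.dt0 _ _ h3
  have id1 : (dt (u j) (u k) : ℂ) * u i + (dt (u k) (u i) : ℂ) * u j
      + (dt (u i) (u j) : ℂ) * u k = 0 := by
    apply Complex.ext <;> simp [dt] <;> ring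
  unfold vxi vx Dl pA
  push_cast
  field_simp
  linear_combination (H j : ℂ) * id1

/-- the vectors of the condition `n6` -/
noncomputable def sA (u : Fin n → ℂ) (i j k s : Fin n) (H : Fin n → ℝ) : ℂ :=
  rl (u s, H s) (vxi u j k H) - vxi u i j H

noncomputable def sB (u : Fin n → ℂ) (i j k : Fin n) (H : Fin n → ℝ) : ℂ :=
  u i * u i * (starRingEnd ℂ) (vxi u j k H - vxi u i j H)

theorem n6_fix {u : Fin n → ℂ} (hu : GX u) {i j k s : Fin n} (hd : D4 i j k s) :
    ∀ᵐ H : Fin n → ℝ, dt (sA u i j k s H) (sB u i j k H) ≠ 0 := by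
  obtain ⟨h1, h2, h3, h4, h5, h6⟩ := hd
  have hDl : ∀ᵐ H : Fin n → ℝ, Dl u i j k H ≠ 0 := by
    refine ae_lin_ne' (Dl_lin u i j k) ⟨i, ?_⟩
    have := abs_Dl_single u h1 h2 h4 i
    unfold ac at this
    rw [if_pos rfl] at this
    intro e
    rw [e, abs_zero] at this
    exact hu.dt0 _ _ h4 (abs_eq_zero.1 this.symm)
  have hc1 : Continuous (vxi u j k) := lin_cont (vxi_lin u j k)
  have hc2 : Continuous (vxi u i j) := lin_cont (vxi_lin u i j)
  have hcA : Continuous (sA u i j k s) := by
    unfold sA rl ip
    fun_prop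
  have hcB : Continuous (sB u i j k) := by
    unfold sB
    have : Continuous fun H => (starRingEnd ℂ) (vxi u j k H - vxi u i j H) :=
      Complex.continuous_conj.comp (hc1.sub hc2)
    fun_prop
  have hcD : Continuous (Dl u i j k) := lin_cont (Dl_lin u i j k)
  have hcF : Continuous fun H => dt (sA u i j k s H) (sB u i j k H) := by
    unfold dt
    exact ((Complex.continuous_re.comp hcA).mul (Complex.continuous_im.comp hcB)).sub
      ((Complex.continuous_im.comp hcA).mul (Complex.continuous_re.comp hcB))
  have key : ∀ᵐ H : Fin n → ℝ, ¬ (Dl u i j k H ≠ 0 ∧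
      dt (sA u i j k s H) (sB u i j k H) = 0) := by
    refine ae_of_line s _ ?_ (fun H => ?_)
    · refine MeasurableSet.compl (MeasurableSet.inter ?_ ?_)
      · exact (isOpen_ne_fun hcD continuous_const).measurableSet
      · exact (isClosed_eq hcF continuous_const).measurableSet
    · have e1 : ∀ t : ℝ, vxi u j k (H + t • Pi.single s 1) = vxi u j k H := by
        intro t
        rw [lin_line (vxi_lin u j k), vxi_0 u h5.symm h6.symm, smul_zero, add_zero]
      have e2 : ∀ t : ℝ, vxi u i j (H + t • Pi.single s 1) = vxi u i j H := by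
        intro t
        rw [lin_line (vxi_lin u i j), vxi_0 u h3.symm h5.symm, smul_zero, add_zero]
      have e3 : ∀ t : ℝ, sA u i j k s (H + t • Pi.single s 1)
          = sA u i j k s H + ((2 * t : ℝ) : ℂ) * u s := by
        intro t
        unfold sA rl
        rw [e1, e2]
        simp only [Pi.add_apply, Pi.smul_apply, Pi.single_eq_same, smul_eq_mul, mul_one]
        push_cast
        ring
      have e4 : ∀ t : ℝ, sB u i j k (H + t • Pi.single s 1) = sB u i j k H := by
        intro t
        unfold sB
        rw [e1, e2]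
      have e5 : ∀ t : ℝ, Dl u i j k (H + t • Pi.single s 1) = Dl u i j k H := by
        intro t
        unfold Dl
        simp only [Pi.add_apply, Pi.smul_apply, Pi.single_eq_of_ne h3, Pi.single_eq_of_ne h5,
          Pi.single_eq_of_ne h6, smul_zero, add_zero]
      by_cases h0 : Dl u i j k H = 0
      · refine Eventually.of_forall fun t => ?_
        rintro ⟨h7, -⟩
        rw [e5] at h7
        exact h7 h0
      · have hb : dt (u s) (sB u i j k H) ≠ 0 := by
          have g1 : vxi u j k H - vxi u i j H
              = ((Dl u i j k H / pA u i j k : ℝ) : ℂ) * (I * u j) := by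
            have := seg_eq hu.toGU H (i := i) (j := j) (k := k) ⟨h1, h2, h4⟩
            push_cast at this ⊢
            linear_combination -this
          unfold sB
          rw [g1, map_mul, map_mul, Complex.conj_ofReal, Complex.conj_I]
          intro e
          have hc : (Dl u i j k H / pA u i j k : ℝ) ≠ 0 :=
            div_ne_zero h0 (pA_ne hu.toGA ⟨h1, h2, h4⟩)
          generalize (Dl u i j k H / pA u i j k : ℝ) = c at e hc
          have e6 : ip (u s) (u i * u i * (starRingEnd ℂ) (u j)) = 0 := by
            have : c * ip (u s) (u i * u i * (starRingEnd ℂ) (u j)) = 0 := by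
              unfold dt at e
              unfold ip
              simp only [Complex.mul_re, Complex.mul_im, Complex.ofReal_re, Complex.ofReal_im,
                Complex.neg_re, Complex.neg_im, Complex.I_re, Complex.I_im, Complex.conj_re,
                Complex.conj_im] at e ⊢
              linear_combination -e
            exact (mul_eq_zero.1 this).resolve_left hc
          obtain ⟨x1, x2⟩ := hu.x2 i s j ⟨h3, h1, h5.symm⟩
          -- `u i ^ 2 = z * u s * u j` with `z` unimodular and `re z = 0`
          set z : ℂ := u i * u i * (starRingEnd ℂ) (u s) * (starRingEnd ℂ) (u j) with hz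
          have ns : (u s) * (starRingEnd ℂ) (u s) = 1 := by
            rw [Complex.mul_conj, Complex.normSq_eq_norm_sq, hu.nr]
            norm_num
          have nj : (u j) * (starRingEnd ℂ) (u j) = 1 := by
            rw [Complex.mul_conj, Complex.normSq_eq_norm_sq, hu.nr]
            norm_num
          have z1 : u i * u i = z * (u s * u j) := by
            rw [hz]
            linear_combination (-(u i * u i) * (u j * (starRingEnd ℂ) (u j))) * ns
              - (u i * u i) * nj
          have zre : z.re = 0 := by
            rw [← e6, hz]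
            unfold ip
            simp only [Complex.mul_re, Complex.mul_im, Complex.conj_re, Complex.conj_im]
            ring
          have zn : ‖z‖ = 1 := by
            rw [hz, norm_mul, norm_mul, norm_mul, RCLike.norm_conj, RCLike.norm_conj, hu.nr, hu.nr,
              hu.nr]
            norm_num
          have zim : z.im = 1 ∨ z.im = -1 := by
            have := nsq_ip z
            rw [zn] at this
            unfold ip at this
            rw [zre] at this
            have h9 : (z.im - 1) * (z.im + 1) = 0 := by linarith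
            rcases mul_eq_zero.1 h9 with h | h
            · exact Or.inl (by linarith)
            · exact Or.inr (by linarith)
          rcases zim with h | h
          · apply x1
            rw [z1]
            congr 1
            exact Complex.ext (by rw [zre, Complex.I_re]) (by rw [h, Complex.I_im])
          · apply x2
            rw [z1, ← neg_mul]
            congr 1
            exact Complex.ext (by rw [zre, Complex.neg_re, Complex.I_re, neg_zero])
              (by rw [h, Complex.neg_im, Complex.I_im])
        have hq := ae_quad (a := 0) (b := 2 * dt (u s) (sB u i j k H))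
          (c := dt (sA u i j k s H) (sB u i j k H)) (Or.inr (Or.inl (mul_ne_zero two_ne_zero hb)))
        filter_upwards [hq] with t ht
        rintro ⟨-, e⟩
        apply ht
        rw [e3, e4] at e
        unfold dt at e ⊢
        simp only [Complex.add_re, Complex.add_im, Complex.mul_re, Complex.mul_im,
          Complex.ofReal_re, Complex.ofReal_im] at e
        linear_combination e
  filter_upwards [key, hDl] with H h7 h8 h9
  exact h7 ⟨h8, h9⟩

theorem measurable_sA (i j k s : Fin n) :
    Measurable fun p : (Fin n → ℂ) × (Fin n → ℝ) => sA p.1 i j k s p.2 := by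
  unfold sA rl
  refine ((measurable_vxi j k).sub ((Complex.measurable_ofReal.comp ?_).mul
    (by fun_prop))).sub (measurable_vxi i j)
  exact measurable_const.mul ((measurable_ip (by fun_prop) (measurable_vxi j k)).sub
    (by fun_prop))

theorem measurable_sB (i j k : Fin n) :
    Measurable fun p : (Fin n → ℂ) × (Fin n → ℝ) => sB p.1 i j k p.2 := by
  have h0 : ∀ i, Measurable fun p : (Fin n → ℂ) × (Fin n → ℝ) => p.1 i := fun i => by fun_prop
  unfold sB
  exact ((h0 i).mul (h0 i)).mul (Complex.continuous_conj.measurable.comp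
    ((measurable_vxi j k).sub (measurable_vxi i j)))

theorem n6_ae (hX : ∀ᵐ θ : Fin n → ℝ, GX (un θ)) :
    ∀ᵐ p : (Fin n → ℝ) × (Fin n → ℝ), ∀ i j k s, D4 i j k s →
      dt (sA (un p.1) i j k s p.2) (sB (un p.1) i j k p.2) ≠ 0 := by
  simp only [ae_all_iff]
  intro i j k s hd
  refine prod_ne hX (f := fun u H => dt (sA u i j k s H) (sB u i j k H))
    (g := fun _ _ => 0) ?_ measurable_const ?_
  · exact measurable_dt (measurable_sA i j k s) (measurable_sB i j k)
  · intro u hu
    exact n6_fix hu hd

end Pool.Agent.XQ.H1
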