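import Pool.Agent.Helper36_XQ.Stmt4
import Pool.Agent.Helper44_BLK.Small
import Pool.Agent.Helper15_AEU3.Hpk
import Pool.Agent.Helper7_AEU.Ktl

/-!
Squad XQ (MP_5b0138_an), part A4, module MID: the kernel of the middle arc.
-/

set_option autoImplicit false

namespace Pool.Agent.XQ.K4.H1

open MeasureTheory Complex Filter Topology ProbabilityTheory Pool.Agent.H16Iso Pool.Agent.H62T
  Pool.Agent.H16F Pool.Agent.H38KL Pool.Agent.AEU
open scoped ENNReal NNReal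

theorem kME_empty (u : Fin 4 → ℂ) (h : Fin 4 → ℝ) (t : ℝ) (x y : ℂ) (ht : 0 < t) :
    kME u h ∅ ∅ t x y = G t (x - y) := by
  unfold kME pB
  have e : Dm u h ∅ = Set.univ := by
    ext x
    simp [Dm]
  simp only [Finset.powerset_empty, Finset.sum_singleton, Finset.card_empty, pow_zero, one_mul,
    Finset.union_empty]
  rw [e]
  exact H60K.H44.uni t x y ht

theorem kME_single (u : Fin 4 → ℂ) (h : Fin 4 → ℝ) (s : Fin 4) (t : ℝ) (x y : ℂ)
    (hu : ‖u s‖ = 1) (ht : 0 < t) (hx : ip (u s) x < h s) (hy : ip (u s) y < h s) :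
    kME u h {s} ∅ t x y = G t (x - rf u h s y) := by
  have e0 := kME_empty u h t x y ht
  unfold kME pB at e0 ⊢
  simp only [Finset.powerset_empty, Finset.sum_singleton, Finset.card_empty, pow_zero, one_mul,
    Finset.union_empty] at e0
  have e : Dm u h {s} = {z | ip (u s) z < h s} := by
    ext x
    simp [Dm]
  have hp : ∀ s : Fin 4, ({s} : Finset (Fin 4)).powerset = {∅, {s}} := by decide
  rw [hp s, Finset.sum_pair (by simp)]
  simp only [Finset.card_empty, pow_zero, one_mul, Finset.union_empty, Finset.card_singleton,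
    pow_one, Finset.empty_union]
  rw [e0, e, H60K.H15.hpk (u s) (h s) t x y hu ht hx hy]
  unfold rf
  ring

theorem mid (hK : KlbStatement) : MidStatement := by
  refine ⟨kME_empty, fun u h s t x y hu ht hx hy => kME_single u h s t x y hu ht hx hy, ?_⟩
  intro r0 r1 h0 h1
  obtain ⟨c, C, hc, hC, hb⟩ := hK.2.1
  have hr1 : 0 < r1 := h0.trans h1
  have hpi := Real.pi_pos
  refine ⟨c * r1 ^ (-(1 / 2) : ℝ) / (2 * Real.pi), C * r0 ^ (-(1 / 2) : ℝ) / (2 * Real.pi), 1 / r0,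
    by positivity, by positivity, by positivity, ?_⟩
  intro κ w hκ hw0 hw1
  have hκ0 : 0 < κ := lt_of_lt_of_le (by positivity) hκ
  have hw : 0 < ‖w‖ := lt_of_lt_of_le h0 hw0
  have hw' : w ≠ 0 := norm_pos_iff.mp hw
  obtain ⟨hI, hE⟩ := AEU.H7.ktl κ w hκ0 hw'
  have hnn : 0 ≤ᵐ[volume.restrict (Set.Ioi (0 : ℝ))] fun t => Real.exp (-(κ ^ 2 * t)) * G t w := by
    filter_upwards [ae_restrict_mem measurableSet_Ioi] with t ht
    have ht' : 0 < t := ht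
    unfold G
    positivity
  rw [← ofReal_integral_eq_lintegral_ofReal hI hnn, hE]
  have hy : 1 ≤ κ * ‖w‖ := by
    have h2 : 1 / r0 * r0 ≤ κ * ‖w‖ := mul_le_mul hκ hw0 h0.le hκ0.le
    rwa [one_div, inv_mul_cancel₀ h0.ne'] at h2
  obtain ⟨b1, b2⟩ := hb _ hy
  have hm : (κ * ‖w‖) ^ (-(1 / 2) : ℝ) = κ ^ (-(1 / 2) : ℝ) * ‖w‖ ^ (-(1 / 2) : ℝ) :=
    Real.mul_rpow hκ0.le hw.le
  rw [hm] at b1 b2
  have g1 : r1 ^ (-(1 / 2) : ℝ) ≤ ‖w‖ ^ (-(1 / 2) : ℝ) :=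
    Real.rpow_le_rpow_of_nonpos hw hw1 (by norm_num)
  have g0 : ‖w‖ ^ (-(1 / 2) : ℝ) ≤ r0 ^ (-(1 / 2) : ℝ) :=
    Real.rpow_le_rpow_of_nonpos h0 hw0 (by norm_num)
  have hk : 0 < κ ^ (-(1 / 2) : ℝ) := by positivity
  have he : 0 < Real.exp (-(κ * ‖w‖)) := Real.exp_pos _
  constructor
  · refine ENNReal.ofReal_le_ofReal ?_
    rw [le_div_iff₀ (by positivity)]
    calc c * r1 ^ (-(1 / 2) : ℝ) / (2 * Real.pi) * κ ^ (-(1 / 2) : ℝ) * Real.exp (-(κ * ‖w‖))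
          * (2 * Real.pi)
        = c * (κ ^ (-(1 / 2) : ℝ) * r1 ^ (-(1 / 2) : ℝ)) * Real.exp (-(κ * ‖w‖)) := by
          field_simp
      _ ≤ c * (κ ^ (-(1 / 2) : ℝ) * ‖w‖ ^ (-(1 / 2) : ℝ)) * Real.exp (-(κ * ‖w‖)) := by
          gcongr
      _ ≤ _ := b1
  · refine ENNReal.ofReal_le_ofReal ?_
    rw [div_le_iff₀ (by positivity)]
    calc Kit 0 (κ * ‖w‖)
        ≤ C * (κ ^ (-(1 / 2) : ℝ) * ‖w‖ ^ (-(1 / 2) : ℝ)) * Real.exp (-(κ * ‖w‖)) := b2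
      _ ≤ C * (κ ^ (-(1 / 2) : ℝ) * r0 ^ (-(1 / 2) : ℝ)) * Real.exp (-(κ * ‖w‖)) := by
          gcongr
      _ = C * r0 ^ (-(1 / 2) : ℝ) / (2 * Real.pi) * κ ^ (-(1 / 2) : ℝ) * Real.exp (-(κ * ‖w‖))
          * (2 * Real.pi) := by
          field_simp

end Pool.Agent.XQ.K4.H1
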