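import Pool.Agent.Helper1_XQ.Asm
import Pool.Agent.Helper29_XQ.End
import Pool.Agent.Helper29_XQ.Flq

/-!
Squad XQ, part N: the statements `N1Statement` - `N8Statement` and `GenXStatement`.
-/

set_option autoImplicit false

namespace Pool.Agent.XQ.H1

open MeasureTheory Complex Filter Topology Pool.Agent.H62T Pool.Agent.AEU Pool.Agent.AEU.H29
open Pool.Agent.XQ.H29 (N1Statement N2Statement N3Statement N4Statement N5Statement N6Statement
  N8Statement GenXStatement)

theorem gx_ae (n : ℕ) : ∀ᵐ θ : Fin n → ℝ, GX (un θ) := by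
  filter_upwards [H29.angX n] with θ h
  exact ⟨h.toGU, h.x1, h.x2⟩

theorem n1 : N1Statement := by
  intro n
  filter_upwards [ni_ae (gx_ae n)] with p hp
  exact hp.n1

theorem n2 : N2Statement := by
  intro n
  filter_upwards [ni_ae (gx_ae n)] with p hp i j q r q' r' h h' e
  by_contra hcon
  exact hp.n2 i j q r q' r' h h' hcon e

theorem n3 : N3Statement := by
  intro n
  filter_upwards [ni_ae (gx_ae n)] with p hp i j k l i' j' k' l' h h' e m
  have e' : ‖dg (un p.1) i j k l p.2‖ = ‖dg (un p.1) i' j' k' l' p.2‖ := e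
  constructor
  · intro hm
    by_contra hcon
    exact hp.n3 i j k l i' j' k' l' h h' ⟨m, hm, hcon⟩ e'
  · intro hm
    by_contra hcon
    exact hp.n3 i' j' k' l' i j k l h' h ⟨m, hm, hcon⟩ e'.symm

theorem n4 : N4Statement := by
  intro n
  filter_upwards [ni_ae (gx_ae n)] with p hp
  exact hp.n4

theorem n5 : N5Statement := by
  intro n
  filter_upwards [ni_ae (gx_ae n)] with p hp
  exact hp.n5

theorem n6 : N6Statement := by
  intro n
  filter_upwards [ni_ae (gx_ae n)] with p hp
  exact hp.n6

theorem n8 : N8Statement := by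
  intro n
  filter_upwards [ni_ae (gx_ae n)] with p hp i j q r h α θ h0 h1 h2 _ _ h3 m
  exact n8_of (hp.n8 i j q r h) h0 h1 h2 h3 m

/-- almost all convex polygons are generic in the sense of squad XQ -/
theorem genXThm : GenXStatement := H29.genx n1 n2 n3 n4 n5 n6 n8

end Pool.Agent.XQ.H1
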