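import Pool.Agent.Helper29_AEU.GencFinal
import Pool.Agent.Helper16_XQ.Defs

/-!
Squad XQ, part N: tools for the null sets of the new genericity conditions.
-/

set_option autoImplicit false

namespace Pool.Agent.XQ.H1

open MeasureTheory Complex Filter Topology Pool.Agent.H62T Pool.Agent.AEU Pool.Agent.AEU.H29
open Pool.Agent.AEU.H75 (ae_of_line)

variable {n : ℕ}

theorem ae_quad {a b c : ℝ} (h : a ≠ 0 ∨ b ≠ 0 ∨ c ≠ 0) :
    ∀ᵐ t : ℝ, a * t ^ 2 + b * t + c ≠ 0 := by
  classical
  have hp : (Polynomial.C a * Polynomial.X ^ 2 + Polynomial.C b * Polynomial.X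
      + Polynomial.C c : Polynomial ℝ) ≠ 0 := by
    intro e
    have h2 := congrArg (fun p => Polynomial.coeff p 2) e
    have h1 := congrArg (fun p => Polynomial.coeff p 1) e
    have h0 := congrArg (fun p => Polynomial.coeff p 0) e
    simp [Polynomial.coeff_X, Polynomial.coeff_C] at h0 h1 h2
    rcases h with h | h | h
    · exact h h2
    · exact h h1
    · exact h h0
  have hfin : {t : ℝ | a * t ^ 2 + b * t + c = 0}.Finite := by
    refine (Polynomial.finite_setOfPred_isRoot hp).subset ?_
    intro t ht
    simp only [Set.mem_ofPred_eq, Polynomial.IsRoot.def, Polynomial.eval_add, Polynomial.eval_mul,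
      Polynomial.eval_C, Polynomial.eval_pow, Polynomial.eval_X]
    exact ht
  exact measure_eq_zero_iff_ae_notMem.1 (hfin.measure_zero volume)

theorem nsq_ip (z : ℂ) : ‖z‖ ^ 2 = ip z z := by
  rw [← Complex.normSq_eq_norm_sq, Complex.normSq_apply]
  rfl

theorem lin_line {E : Type*} [AddCommGroup E] [Module ℝ E] {A : (Fin n → ℝ) → E}
    (hA : IsLinearMap ℝ A) (H : Fin n → ℝ) (m : Fin n) (t : ℝ) :
    A (H + t • Pi.single m 1) = A H + t • A (Pi.single m 1) := by
  rw [hA.map_add, hA.map_smul]

theorem lin_cont {E : Type*} [NormedAddCommGroup E] [NormedSpace ℝ E] {A : (Fin n → ℝ) → E}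
    (hA : IsLinearMap ℝ A) : Continuous A :=
  (hA.mk' A).continuous_of_finiteDimensional

/-- two linear maps with values in the plane have different norms almost everywhere, if they have
different norms at one basis vector -/
theorem ae_norm_ne {A B : (Fin n → ℝ) → ℂ} (hA : IsLinearMap ℝ A) (hB : IsLinearMap ℝ B)
    (hm : ∃ m, ‖A (Pi.single m 1)‖ ≠ ‖B (Pi.single m 1)‖) :
    ∀ᵐ H : Fin n → ℝ, ‖A H‖ ≠ ‖B H‖ := by
  obtain ⟨m, hm⟩ := hm
  have hca := lin_cont hA
  have hcb := lin_cont hB
  refine ae_of_line m _ (isOpen_ne_fun hca.norm hcb.norm).measurableSet (fun H => ?_)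
  have hq := ae_quad (a := ‖A (Pi.single m 1)‖ ^ 2 - ‖B (Pi.single m 1)‖ ^ 2)
    (b := 2 * (ip (A H) (A (Pi.single m 1)) - ip (B H) (B (Pi.single m 1))))
    (c := ‖A H‖ ^ 2 - ‖B H‖ ^ 2) (Or.inl (by
      intro e
      apply hm
      exact (pow_left_inj₀ (norm_nonneg _) (norm_nonneg _) two_ne_zero).1 (sub_eq_zero.1 e)))
  filter_upwards [hq] with t ht e
  apply ht
  have e2 : ‖A (H + t • Pi.single m 1)‖ ^ 2 = ‖B (H + t • Pi.single m 1)‖ ^ 2 := by rw [e]
  rw [lin_line hA, lin_line hB] at e2
  rw [nsq_ip, nsq_ip] at e2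
  rw [nsq_ip, nsq_ip, nsq_ip, nsq_ip]
  unfold ip at e2 ⊢
  simp only [Complex.add_re, Complex.add_im, Complex.real_smul, Complex.mul_re, Complex.mul_im,
    Complex.ofReal_re, Complex.ofReal_im] at e2
  linear_combination e2

/-- a nonzero linear functional -/
theorem ae_lin_ne' {l : (Fin n → ℝ) → ℝ} (h : IsLinearMap ℝ l) (hm : ∃ m, l (Pi.single m 1) ≠ 0) :
    ∀ᵐ H : Fin n → ℝ, l H ≠ 0 := by
  obtain ⟨m, hm⟩ := hm
  exact ae_lin_ne h hm

/-- the vector `W H` does not make a given angle with `e` -/
theorem ae_cos_ne {W : (Fin n → ℝ) → ℂ} (hW : IsLinearMap ℝ W) {e : ℂ} (m : Fin n)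
    (h1 : ip e (W (Pi.single m 1)) ≠ 0)
    (h2 : ∀ᵐ H : Fin n → ℝ, dt (W H) (W (Pi.single m 1)) ≠ 0) (c : ℝ) :
    ∀ᵐ H : Fin n → ℝ, ip e (W H) ≠ c * ‖W H‖ := by
  have hc := lin_cont hW
  have key : ∀ᵐ H : Fin n → ℝ, ¬ (dt (W H) (W (Pi.single m 1)) ≠ 0 ∧ ip e (W H) = c * ‖W H‖) := by
    refine ae_of_line m _ ?_ (fun H => ?_)
    · refine MeasurableSet.compl (MeasurableSet.inter ?_ ?_)
      · have : Continuous fun H => dt (W H) (W (Pi.single m 1)) := by
          unfold dt
          fun_prop
        exact (isOpen_ne_fun this continuous_const).measurableSet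
      · have h3 : Continuous fun H => ip e (W H) := by
          unfold ip
          fun_prop
        exact (isClosed_eq h3 (continuous_const.mul hc.norm)).measurableSet
    · set w := W H with hw
      set d := W (Pi.single m 1) with hd
      by_cases h0 : dt w d = 0
      · refine Eventually.of_forall fun t => ?_
        rintro ⟨h4, -⟩
        apply h4
        rw [lin_line hW, ← hw, ← hd]
        unfold dt at h0 ⊢
        simp only [Complex.add_re, Complex.add_im, Complex.real_smul, Complex.mul_re,
          Complex.mul_im, Complex.ofReal_re, Complex.ofReal_im]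
        linear_combination h0
      · have hq := ae_quad (a := ip e d ^ 2 - c ^ 2 * ip d d)
          (b := 2 * (ip e w * ip e d - c ^ 2 * ip w d)) (c := ip e w ^ 2 - c ^ 2 * ip w w) (by
            by_contra hcon
            push Not at hcon
            obtain ⟨q1, q2, q3⟩ := hcon
            -- at the root of the square the quadratic form vanishes
            have e1 : c ^ 2 * ip d d = ip e d ^ 2 := by linarith
            have e2 : c ^ 2 * ip w d = ip e w * ip e d := by linarith
            have e3 : c ^ 2 * ip w w = ip e w ^ 2 := by linarith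
            have q4 : (c ^ 2 * dt w d) ^ 2 = 0 := by
              have lg : dt w d ^ 2 = ip w w * ip d d - ip w d ^ 2 := by
                unfold dt ip
                ring
              calc (c ^ 2 * dt w d) ^ 2 = (c ^ 2 * ip w w) * (c ^ 2 * ip d d)
                    - (c ^ 2 * ip w d) ^ 2 := by rw [mul_pow, lg]; ring
                _ = 0 := by rw [e1, e2, e3]; ring
            have q5 : c = 0 := by
              have := (pow_eq_zero_iff two_ne_zero).1 q4
              exact (pow_eq_zero_iff two_ne_zero).1 ((mul_eq_zero.1 this).resolve_right h0)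
            rw [q5] at q1
            apply h1
            have : ip e d ^ 2 = 0 := by linear_combination q1
            exact (pow_eq_zero_iff two_ne_zero).1 this)
        filter_upwards [hq] with t ht
        rintro ⟨-, e2⟩
        apply ht
        have e3 : ip e (W (H + t • Pi.single m 1)) ^ 2
            = c ^ 2 * ‖W (H + t • Pi.single m 1)‖ ^ 2 := by rw [e2]; ring
        rw [lin_line hW, ← hw, ← hd, nsq_ip] at e3
        unfold ip at e3 ⊢
        simp only [Complex.add_re, Complex.add_im, Complex.real_smul, Complex.mul_re,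
          Complex.mul_im, Complex.ofReal_re, Complex.ofReal_im] at e3
        linear_combination e3
  filter_upwards [key, h2] with H h3 h4 h5
  exact h3 ⟨h4, h5⟩

end Pool.Agent.XQ.H1
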