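import Pool.Agent.Helper1_XQ.Tool

/-!
Squad XQ, part N: the intersection points as linear functions of the support numbers, the
reflection which exchanges two lines, and Fubini.
-/

set_option autoImplicit false

namespace Pool.Agent.XQ.H1

open MeasureTheory Complex Filter Topology Pool.Agent.H62T Pool.Agent.AEU Pool.Agent.AEU.H29
open Pool.Agent.AEU.H75 (ae_of_line)

variable {n : ℕ}

/-- four different indices -/
def D4 (i j k l : Fin n) : Prop := i ≠ j ∧ i ≠ k ∧ i ≠ l ∧ j ≠ k ∧ j ≠ l ∧ k ≠ l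

/-- generic unit normals with the conditions `x1`, `x2` -/
structure GX (u : Fin n → ℂ) : Prop extends GU u where
  x1 : ∀ i j k l, D4 i j k l → u i * u k ≠ I * (u j * u l) ∧ u i * u k ≠ -(I * (u j * u l))
  x2 : ∀ i j k, Di i j k → u i * u i ≠ I * (u j * u k) ∧ u i * u i ≠ -(I * (u j * u k))

/-- Fubini -/
theorem prod_ne (hX : ∀ᵐ θ : Fin n → ℝ, GX (un θ)) {f g : (Fin n → ℂ) → (Fin n → ℝ) → ℝ}
    (hf : Measurable fun p : (Fin n → ℂ) × (Fin n → ℝ) => f p.1 p.2)
    (hg : Measurable fun p : (Fin n → ℂ) × (Fin n → ℝ) => g p.1 p.2)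
    (h : ∀ u, GX u → ∀ᵐ H : Fin n → ℝ, f u H ≠ g u H) :
    ∀ᵐ p : (Fin n → ℝ) × (Fin n → ℝ), f (un p.1) p.2 ≠ g (un p.1) p.2 := by
  have hm : Measurable fun p : (Fin n → ℝ) × (Fin n → ℝ) => ((un p.1, p.2) :
      (Fin n → ℂ) × (Fin n → ℝ)) := (measurable_un.comp measurable_fst).prodMk measurable_snd
  have hs : MeasurableSet {p : (Fin n → ℝ) × (Fin n → ℝ) | f (un p.1) p.2 = g (un p.1) p.2} :=
    measurableSet_eq_fun (hf.comp hm) (hg.comp hm)
  have h1 : (volume : Measure ((Fin n → ℝ) × (Fin n → ℝ))) {p | f (un p.1) p.2 =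
      g (un p.1) p.2} = 0 := by
    rw [Measure.volume_eq_prod, Measure.measure_prod_null hs]
    filter_upwards [hX] with θ hθ
    have h2 := h (un θ) hθ
    rw [ae_iff] at h2
    simpa using h2
  rw [ae_iff]
  simpa using h1

/-- the intersection point of the lines `i` and `j` -/
noncomputable def vxi (u : Fin n → ℂ) (i j : Fin n) (H : Fin n → ℝ) : ℂ :=
  vx (u i, H i) (u j, H j)

theorem vxi_lin (u : Fin n → ℂ) (i j : Fin n) : IsLinearMap ℝ (vxi u i j) :=
  ⟨fun x y => by
      simp only [vxi, vx, Pi.add_apply, Complex.ofReal_add]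
      ring,
    fun c x => by
      simp only [vxi, vx, Pi.smul_apply, smul_eq_mul, Complex.ofReal_mul, Complex.real_smul]
      ring⟩

theorem sub_lin {A B : (Fin n → ℝ) → ℂ} (hA : IsLinearMap ℝ A) (hB : IsLinearMap ℝ B) :
    IsLinearMap ℝ (fun H => A H - B H) :=
  ⟨fun x y => by rw [hA.map_add, hB.map_add]; ring,
    fun c x => by rw [hA.map_smul, hB.map_smul, smul_sub]⟩

theorem smul_lin {A : (Fin n → ℝ) → ℂ} (hA : IsLinearMap ℝ A) (a : ℝ) :
    IsLinearMap ℝ (fun H => (a : ℂ) * A H) :=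
  ⟨fun x y => by rw [hA.map_add]; ring,
    fun c x => by rw [hA.map_smul]; simp only [Complex.real_smul]; ring⟩

theorem ip_lin {A : (Fin n → ℝ) → ℂ} (hA : IsLinearMap ℝ A) (e : ℂ) :
    IsLinearMap ℝ (fun H => ip (A H) e) :=
  ⟨fun x y => by rw [hA.map_add]; unfold ip; simp only [Complex.add_re, Complex.add_im]; ring,
    fun c x => by
      rw [hA.map_smul]
      unfold ip
      simp only [Complex.real_smul, Complex.mul_re, Complex.mul_im, Complex.ofReal_re,
        Complex.ofReal_im, smul_eq_mul]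
      ring⟩

/-- value at a basis vector: the first line moves -/
theorem vxi_l (u : Fin n → ℂ) {i j : Fin n} (h : i ≠ j) :
    vxi u i j (Pi.single i 1) = -(I * u j) / (dt (u i) (u j) : ℂ) := by
  unfold vxi vx
  simp only [Pi.single_eq_same, Pi.single_eq_of_ne h.symm, Complex.ofReal_zero,
    Complex.ofReal_one]
  ring

/-- value at a basis vector: the second line moves -/
theorem vxi_r (u : Fin n → ℂ) {i j : Fin n} (h : i ≠ j) :
    vxi u i j (Pi.single j 1) = (I * u i) / (dt (u i) (u j) : ℂ) := by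
  unfold vxi vx
  simp only [Pi.single_eq_same, Pi.single_eq_of_ne h, Complex.ofReal_zero,
    Complex.ofReal_one]
  ring

/-- value at a basis vector: no line moves -/
theorem vxi_0 (u : Fin n → ℂ) {i j m : Fin n} (hi : m ≠ i) (hj : m ≠ j) :
    vxi u i j (Pi.single m 1) = 0 := by
  unfold vxi vx
  simp only [Pi.single_eq_of_ne hi.symm, Pi.single_eq_of_ne hj.symm, Complex.ofReal_zero]
  ring

theorem norm_vxi_l {u : Fin n → ℂ} (hu : GU u) {i j : Fin n} (h : i ≠ j) :
    ‖vxi u i j (Pi.single i 1)‖ = 1 / |dt (u i) (u j)| := by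
  rw [vxi_l u h, norm_div, norm_neg, norm_mul, Complex.norm_I, hu.nr, Complex.norm_real,
    Real.norm_eq_abs, one_mul]

theorem norm_vxi_r {u : Fin n → ℂ} (hu : GU u) {i j : Fin n} (h : i ≠ j) :
    ‖vxi u i j (Pi.single j 1)‖ = 1 / |dt (u i) (u j)| := by
  rw [vxi_r u h, norm_div, norm_mul, Complex.norm_I, hu.nr, Complex.norm_real,
    Real.norm_eq_abs, one_mul]

theorem measurable_vxi (i j : Fin n) :
    Measurable fun p : (Fin n → ℂ) × (Fin n → ℝ) => vxi p.1 i j p.2 := by
  have h0 : ∀ i, Measurable fun p : (Fin n → ℂ) × (Fin n → ℝ) => p.1 i := fun i => by fun_prop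
  have h2 : ∀ i, Measurable fun p : (Fin n → ℂ) × (Fin n → ℝ) => ((p.2 i : ℝ) : ℂ) := fun i =>
    Complex.measurable_ofReal.comp (by fun_prop)
  unfold vxi vx
  exact (measurable_const.mul (((h2 j).mul (h0 i)).sub ((h2 i).mul (h0 j)))).div
    (Complex.measurable_ofReal.comp (measurable_dt (h0 i) (h0 j)))

theorem measurable_ip {α : Type*} [MeasurableSpace α] {f g : α → ℂ} (hf : Measurable f)
    (hg : Measurable g) : Measurable fun x => ip (f x) (g x) := by
  unfold ip
  fun_prop

/-- the reflection which exchanges the lines `a` and `c` -/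
noncomputable def flp (u : Fin n → ℂ) (a c : Fin n) (H : Fin n → ℝ) (x : ℂ) : ℂ :=
  u a * u c * (starRingEnd ℂ) x + vx (u a, H a - H c) (u c, H c - H a)

/-- an isometry which exchanges the half-planes `a` and `c` is the reflection `flp` -/
theorem flp_eq {u : Fin n → ℂ} (hu : GU u) (H : Fin n → ℝ) {a c : Fin n} (hac : a ≠ c)
    {f : Iso2} (h1 : mv f (u a, H a) = (u c, H c)) (h2 : mv f (u c, H c) = (u a, H a)) (x : ℂ) :
    f x = flp u a c H x := by
  have d : dt (u a) (u c) ≠ 0 := hu.dt0 _ _ hac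
  unfold mv at h1 h2
  simp only [Prod.mk.injEq] at h1 h2
  obtain ⟨h3, h4⟩ := h1
  obtain ⟨h5, h6⟩ := h2
  rw [h3] at h4
  rw [h5] at h6
  have ni : (u a) * (starRingEnd ℂ) (u a) = 1 := by
    rw [Complex.mul_conj, Complex.normSq_eq_norm_sq, hu.nr]
    norm_num
  have nj : (u c) * (starRingEnd ℂ) (u c) = 1 := by
    rw [Complex.mul_conj, Complex.normSq_eq_norm_sq, hu.nr]
    norm_num
  have id1 : (dt (u a) (u c)) • x = (- dt (u c) x) • u a + (- dt x (u a)) • u c := by
    apply Complex.ext <;> simp [dt] <;> ring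
  have hL : f.linearIsometryEquiv x = u a * u c * (starRingEnd ℂ) x := by
    have e1 := congrArg f.linearIsometryEquiv id1
    rw [map_add, map_smul, map_smul, map_smul, h3, h5] at e1
    have e2 : (dt (u a) (u c)) • (u a * u c * (starRingEnd ℂ) x)
        = (- dt (u c) x) • u c + (- dt x (u a)) • u a := by
      have e3 := congrArg (fun z : ℂ => u a * u c * (starRingEnd ℂ) z) id1
      simp only [map_add, Complex.real_smul, map_mul, Complex.conj_ofReal] at e3
      simp only [Complex.real_smul]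
      push_cast at e3 ⊢
      linear_combination e3 + (- dt (u c) x : ℂ) * u c * ni + (- dt x (u a) : ℂ) * u a * nj
    exact smul_right_injective ℂ d (e1.trans e2.symm)
  have h0 : f 0 = vx (u a, H a - H c) (u c, H c - H a) := by
    have k1 : ip (u c) (f 0) = H c - H a := by linarith
    have k2 : ip (u a) (f 0) = H a - H c := by linarith
    have dd : (dt (u a) (u c) : ℂ) ≠ 0 := by exact_mod_cast d
    unfold vx
    rw [eq_div_iff dd]
    simp only
    rw [← k1, ← k2]
    apply Complex.ext <;> simp [dt, ip] <;> ring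
  have h7 : f x = f.linearIsometryEquiv x + f 0 := by
    have := f.map_vadd 0 x
    simpa using this
  rw [h7, hL, h0]
  rfl

/-- the image of the point `a b'` under the reflection, as a function of the support numbers -/
noncomputable def fvx (u : Fin n → ℂ) (a c b : Fin n) (H : Fin n → ℝ) : ℂ :=
  flp u a c H (vxi u a b H)

theorem fvx_lin (u : Fin n → ℂ) (a c b : Fin n) : IsLinearMap ℝ (fvx u a c b) :=
  ⟨fun x y => by
      simp only [fvx, flp, (vxi_lin u a b).map_add, map_add, vx, Pi.add_apply, Complex.ofReal_add,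
        Complex.ofReal_sub]
      ring,
    fun c x => by
      simp only [fvx, flp, (vxi_lin u a b).map_smul, vx, Pi.smul_apply, smul_eq_mul,
        Complex.ofReal_mul, Complex.ofReal_sub, Complex.real_smul, map_mul, Complex.conj_ofReal]
      ring⟩

theorem fvx_b {u : Fin n → ℂ} (hu : GU u) {a b c : Fin n} (hab : a ≠ b) (hcb : c ≠ b) :
    ‖fvx u a c b (Pi.single b 1)‖ = 1 / |dt (u a) (u b)| := by
  unfold fvx flp
  rw [vxi_r u hab]
  have : vx (u a, (Pi.single b (1 : ℝ) : Fin n → ℝ) a - (Pi.single b (1 : ℝ) : Fin n → ℝ) c)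
      (u c, (Pi.single b (1 : ℝ) : Fin n → ℝ) c - (Pi.single b (1 : ℝ) : Fin n → ℝ) a) = 0 := by
    unfold vx
    simp only [Pi.single_eq_of_ne hab, Pi.single_eq_of_ne hcb, sub_zero, Complex.ofReal_zero]
    ring
  rw [this, add_zero, norm_mul, norm_mul, hu.nr, hu.nr, RCLike.norm_conj, norm_div, norm_mul,
    Complex.norm_I, hu.nr, Complex.norm_real, Real.norm_eq_abs]
  ring

theorem fvx_0 (u : Fin n → ℂ) {a b c m : Fin n} (ha : m ≠ a) (hb : m ≠ b) (hc : m ≠ c) :
    fvx u a c b (Pi.single m 1) = 0 := by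
  unfold fvx flp
  rw [vxi_0 u ha hb]
  unfold vx
  simp only [Pi.single_eq_of_ne ha.symm, Pi.single_eq_of_ne hc.symm, sub_zero,
    Complex.ofReal_zero, map_zero]
  ring

theorem measurable_fvx (a c b : Fin n) :
    Measurable fun p : (Fin n → ℂ) × (Fin n → ℝ) => fvx p.1 a c b p.2 := by
  have h0 : ∀ i, Measurable fun p : (Fin n → ℂ) × (Fin n → ℝ) => p.1 i := fun i => by fun_prop
  have h2 : ∀ i j, Measurable fun p : (Fin n → ℂ) × (Fin n → ℝ) => ((p.2 i - p.2 j : ℝ) : ℂ) :=
    fun i j => Complex.measurable_ofReal.comp (by fun_prop)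
  unfold fvx flp vx
  exact (((h0 a).mul (h0 c)).mul (Complex.continuous_conj.measurable.comp
    (measurable_vxi a b))).add ((measurable_const.mul (((h2 c a).mul (h0 a)).sub
      ((h2 a c).mul (h0 c)))).div (Complex.measurable_ofReal.comp (measurable_dt (h0 a) (h0 c))))

end Pool.Agent.XQ.H1
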